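import Pool.Agent.H952Z.Sch.Main

/-!
# Approximation numbers of Schatten class identities near full rank

Positive answer to Q1. Take `S = (N² / d) R* R` with `R` a map to dimension `d = n - 1` built by
removing one direction at a time, so that `id - S` is small as a bilinear form on matrices of rank
at most `k = ⌈N ^ (λ - 1)⌉` (a restricted isometry property, by nets); the unit balls of `S_p` and
of the dual of `S_q` lie in twice the convex hull of such matrices of Hilbert-Schmidt norm one.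
-/

set_option autoImplicit false

namespace Pool.Agent.Results.MP_6a785f_an.ANoLog

open Pool.Agent.H952Z.Sch

/-- For every `c ∈ (0,1)` there is `C > 0`, depending only on `c`, such that for all real
`1 ≤ p ≤ 2 ≤ q` and all `N ≥ 1`, `n` with `(1-c) N² ≤ n ≤ N² - c N^λ + 1`,
`a_n(id : S_p^N → S_q^N) ≤ C N^(λ/2-2) √(N² - n + 1)`, where `λ = max (3 - 2/p) (1 + 2/q)`. -/
theorem result (c : ℝ) (hc0 : 0 < c) (hc1 : c < 1) :
    ∃ C : ℝ, 0 < C ∧ ∀ p q : ℝ, 1 ≤ p → p ≤ 2 → 2 ≤ q → ∀ N n : ℕ, 1 ≤ N →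
      (1 - c) * (N : ℝ) ^ 2 ≤ n →
      (n : ℝ) ≤ (N : ℝ) ^ 2 - c * (N : ℝ) ^ (max (3 - 2 / p) (1 + 2 / q)) + 1 →
      approxNumber p q n
          (LinearMap.id : Matrix (Fin N) (Fin N) ℝ →ₗ[ℝ] Matrix (Fin N) (Fin N) ℝ) ≤
        ENNReal.ofReal (C * (N : ℝ) ^ (max (3 - 2 / p) (1 + 2 / q) / 2 - 2)
          * Real.sqrt ((N : ℝ) ^ 2 - n + 1)) :=
  main c hc0 hc1

end Pool.Agent.Results.MP_6a785f_an.ANoLog
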